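import Pool.Agent.MP_199c9e_co.Main

/-! Orthogonal representations with a small perturbation and extra unknown weights. -/

set_option autoImplicit false

namespace Pool.Agent.MP_199c9e_co.Top

open Finset Polynomial Matrix Pool.Agent.MP_199c9e_co

universe u

variable {F : Type u} [Field F]

theorem det_coeff {ι : Type} [Fintype ι] [DecidableEq ι] (M : Matrix ι ι F[X]) :
    M.det.coeff 0 = (M.map fun p => p.coeff 0).det := by
  have := RingHom.map_det (Polynomial.constantCoeff (R := F)) M
  rw [Polynomial.constantCoeff_apply] at this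
  rw [this]
  congr 1

/-- Nonvanishing step, modulo a power of `X`. -/
theorem not_all_dvd {d r : ℕ} (h : r + 1 ≤ d) (a : Fin (r + 1) → ℕ → F[X])
    (hdet : (Matrix.of fun i j : Fin (r + 1) => (a i j).coeff 0).det ≠ 0)
    (b : ℕ → F[X]) (hb : (b r).coeff 0 ≠ 0) : ¬ ∀ i, X ^ d ∣ form d (a i) b := by
  classical
  intro hall
  set M : Matrix (Fin (r + 1)) (Fin (r + 1)) F[X] := Matrix.of fun i j => a i j with hM
  choose e he using fun i => (pow_dvd_pow X h).trans (hall i)
  let z : Fin (r + 1) → F[X] := fun j => X ^ (j : ℕ) * b j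
  let q : Fin (r + 1) → F[X] := fun i =>
    e i - ∑ k ∈ range (d - (r + 1)), X ^ k * a i (r + 1 + k) * b (r + 1 + k)
  have h1 : M *ᵥ z = (X ^ (r + 1) : F[X]) • q := by
    ext1 i
    have := he i
    rw [form_split h] at this
    simp only [Matrix.mulVec, dotProduct, hM, Matrix.of_apply, z, q, Pi.smul_apply, smul_eq_mul,
      mul_sub]
    exact eq_sub_of_add_eq this
  have h2 : M.det • z = (X ^ (r + 1) : F[X]) • (M.adjugate *ᵥ q) := by
    rw [← Matrix.mulVec_smul, ← h1, Matrix.mulVec_mulVec, Matrix.adjugate_mul,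
      Matrix.smul_mulVec, Matrix.one_mulVec]
  have h3 := congrFun h2 (Fin.last r)
  simp only [Pi.smul_apply, smul_eq_mul, z, Fin.val_last] at h3
  have h4 : M.det * b r = X * (M.adjugate *ᵥ q) (Fin.last r) := by
    apply mul_left_cancel₀ (pow_ne_zero r (Polynomial.X_ne_zero (R := F)))
    linear_combination h3
  have h5 := congrArg (fun p => Polynomial.coeff p 0) h4
  simp only [Polynomial.mul_coeff_zero, Polynomial.coeff_X_zero, zero_mul] at h5
  rcases mul_eq_zero.mp h5 with h6 | h6
  · rw [hM, det_coeff_zero] at h6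
    exact hdet h6
  · exact hb h6

/-- Construction step with extra unknowns. -/
theorem step {d r : ℕ} (h : r ≤ d) {P : Type} [Fintype P] [DecidableEq P]
    (a : Fin r ⊕ P → ℕ → F[X]) (w : ℕ → F)
    (hdet : (Matrix.of fun i j : Fin r => (a (.inl i) j).coeff 0).det ≠ 0)
    (g : Fin r ⊕ P → F[X]) (hg : ∀ i, X ^ r ∣ g i) (Λ : Fin r ⊕ P → P → F[X])
    (h1 : ∀ i p, i ≠ .inr p → (Λ i p).coeff 0 = 0) (h2 : ∀ p, (Λ (.inr p) p).coeff 0 ≠ 0) :
    ∃ (b : ℕ → F[X]) (κ : F[X]) (μ : P → F[X]), κ.coeff 0 ≠ 0 ∧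
      (∀ j, (b j).coeff 0 = κ.coeff 0 * (if j < r then 0 else w j)) ∧
        ∀ i, form d (a i) b + κ * g i + ∑ p, μ p * Λ i p = 0 := by
  classical
  choose e he using hg
  let M : Matrix (Fin r ⊕ P) (Fin r ⊕ P) F[X] :=
    Matrix.of fun i j => Sum.elim (fun j : Fin r => a i j) (Λ i) j
  let q : Fin r ⊕ P → F[X] := fun i =>
    e i + ∑ k ∈ range (d - r), X ^ k * a i (r + k) * C (w (r + k))
  let z := M.cramer q
  let b : ℕ → F[X] := fun j =>
    if hj : j < r then -(X ^ (r - j) * z (.inl ⟨j, hj⟩)) else M.det * C (w j)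
  refine ⟨b, M.det, fun p => -(X ^ r * z (.inr p)), ?_, ?_, ?_⟩
  · have : (M.map fun p => p.coeff 0) = Matrix.fromBlocks
        (Matrix.of fun i j : Fin r => (a (.inl i) j).coeff 0) 0
        (Matrix.of fun (p : P) (j : Fin r) => (a (.inr p) j).coeff 0)
        (Matrix.diagonal fun p => (Λ (.inr p) p).coeff 0) := by
      ext (i | i) (j | j)
      · rfl
      · exact h1 _ _ Sum.inl_ne_inr
      · rfl
      · by_cases c : i = j
        · subst c
          simp [M]
        · simpa [M, Matrix.diagonal_apply_ne _ c] using h1 (.inr i) j (by simpa using c)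
    rw [det_coeff, this, Matrix.det_fromBlocks_zero₁₂, Matrix.det_diagonal]
    exact mul_ne_zero hdet (Finset.prod_ne_zero_iff.2 fun p _ => h2 p)
  · intro j
    by_cases hj : j < r
    · simp only [b, dif_pos hj, if_pos hj, mul_zero]
      have : r - j = (r - j - 1) + 1 := by omega
      rw [this, pow_succ', mul_assoc, Polynomial.coeff_neg, Polynomial.coeff_X_mul_zero, neg_zero]
    · simp only [b, dif_neg hj, if_neg hj]
      rw [Polynomial.coeff_mul_C]
  · intro i
    rw [form_split h]
    have k1 : (∑ j : Fin r, a i j * (X ^ (j : ℕ) * b j)) =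
        -(X ^ r * ∑ j : Fin r, a i j * z (.inl j)) := by
      simp only [Finset.mul_sum, ← Finset.sum_neg_distrib]
      refine Finset.sum_congr rfl fun j _ => ?_
      simp only [b, dif_pos j.2, Fin.eta]
      have : (X : F[X]) ^ r = X ^ (j : ℕ) * X ^ (r - j) := by
        rw [← pow_add]; congr 1; omega
      rw [this]; ring
    have k2 : (∑ k ∈ range (d - r), X ^ k * a i (r + k) * b (r + k)) =
        M.det * ∑ k ∈ range (d - r), X ^ k * a i (r + k) * C (w (r + k)) := by
      simp only [Finset.mul_sum]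
      refine Finset.sum_congr rfl fun k _ => ?_
      simp only [b, dif_neg (show ¬ (r + k < r) by omega)]
      ring
    have k3 : (∑ p, -(X ^ r * z (.inr p)) * Λ i p) = -(X ^ r * ∑ p, Λ i p * z (.inr p)) := by
      simp only [Finset.mul_sum, ← Finset.sum_neg_distrib]
      exact Finset.sum_congr rfl fun j _ => by ring
    have k4 := congrFun (Matrix.mulVec_cramer M q) i
    simp only [Matrix.mulVec, dotProduct, Fintype.sum_sum_type, Pi.smul_apply, smul_eq_mul] at k4
    rw [k1, k2, k3, he i]
    simp only [M, Matrix.of_apply, Sum.elim_inl, Sum.elim_inr, q] at k4 ⊢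
    linear_combination (-X ^ r) * k4

end Pool.Agent.MP_199c9e_co.Top
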