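import Mathlib.Combinatorics.SimpleGraph.Paths

set_option autoImplicit false

namespace Pool.Agent.MP_199c9e_co.Top

/-- `H` is a topological minor of `G`: `G` contains a subdivision of `H` as a subgraph. The
vertices of `H` are sent injectively to branch vertices of `G`, every edge to a path of `G` between
the images of its ends that meets no other branch vertex, and the paths of two different edges
share only branch vertices. -/
def IsTopMinor {S V : Type} (H : SimpleGraph S) (G : SimpleGraph V) : Prop :=
  ∃ (φ : S → V) (p : ∀ u v, H.Adj u v → G.Walk (φ u) (φ v)), Function.Injective φ ∧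
    (∀ u v h, (p u v h).IsPath) ∧
    (∀ u v h m, φ m ∈ (p u v h).support → m = u ∨ m = v) ∧
    ∀ u v h u' v' h' w, w ∈ (p u v h).support → w ∈ (p u' v' h').support →
      w ∈ Set.range φ ∨ s(u, v) = s(u', v')

end Pool.Agent.MP_199c9e_co.Top
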