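import Pool.Agent.MP_199c9e_co.H27.Vec

/-! The grounded Laplacian of a rooted forest, and the matrix built from the extended vectors. -/

set_option autoImplicit false

namespace Pool.Agent.MP_199c9e_co.Top

open Finset Polynomial Matrix Pool.Agent.MP_199c9e_co

universe u

variable {F : Type u} [Field F]

theorem forest (F : Type u) [Field F] {W : Type} [Fintype W] [DecidableEq W] (Par : W → W → Prop)
    (h2 : ∀ w a b, Par w a → Par w b → a = b) (wf : WellFounded fun a w => Par w a) :
    ∃ C0 Γ0 : Matrix W W F, C0.IsSymm ∧ C0 * Γ0 = 1 ∧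
      (∀ a b, a ≠ b → ¬Par a b → ¬Par b a → C0 a b = 0) ∧
      ∀ K : W → Prop, (∀ w a, Par w a → (K w ↔ K a)) → (∀ a b, K a → ¬K b → Γ0 a b = 0) ∧
        ∀ a, K a → (∀ b, ¬Par a b) → (∀ w, K w → w ≠ a → ∃ b, Par w b) →
          ∀ w, K w → Γ0 w a = 1 := by
  classical
  let N : Matrix W W F := Matrix.of fun w a => if Par w a then 1 else 0
  have n1 : ∀ (η : W → F) w a, Par w a → ((1 - N) *ᵥ η) w = η w - η a := fun η w a h => by
    rw [Matrix.sub_mulVec, Matrix.one_mulVec, Pi.sub_apply]
    congr 1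
    simp only [Matrix.mulVec, dotProduct, N, Matrix.of_apply]
    rw [Finset.sum_eq_single a (fun b _ k => by rw [if_neg fun z => k (h2 w b a z h), zero_mul])
      (by simp), if_pos h, one_mul]
  have n0 : ∀ (η : W → F) w, (∀ a, ¬Par w a) → ((1 - N) *ᵥ η) w = η w := fun η w h => by
    simp [Matrix.sub_mulVec, Matrix.mulVec, dotProduct, N, h, Matrix.one_apply, sub_mul]
  have hL : IsUnit (1 - N) := by
    rw [← Matrix.mulVec_injective_iff_isUnit]
    refine (injective_iff_map_eq_zero (1 - N).mulVecLin).2 fun η h => funext fun w => ?_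
    have h' : ∀ w, ((1 - N) *ᵥ η) w = 0 := congrFun h
    induction w using wf.induction with
    | _ w ih =>
      by_cases c : ∃ a, Par w a
      · obtain ⟨a, c⟩ := c
        have := h' w
        rw [n1 η w a c, ih a c] at this
        simpa using this
      · exact (n0 η w (not_exists.1 c)).symm.trans (h' w)
  have hC : IsUnit ((1 - N)ᵀ * (1 - N)).det := by
    rw [Matrix.det_mul, Matrix.det_transpose]
    exact ((Matrix.isUnit_iff_isUnit_det _).1 hL).mul ((Matrix.isUnit_iff_isUnit_det _).1 hL)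
  have off : ∀ a b, a ≠ b → ¬Par a b → ¬Par b a → ((1 - N)ᵀ * (1 - N) : Matrix W W F) a b = 0 := by
    intro a b k h h'
    rw [Matrix.mul_apply]
    refine Finset.sum_eq_zero fun w _ => ?_
    simp only [Matrix.transpose_apply, Matrix.sub_apply, Matrix.one_apply, N, Matrix.of_apply]
    by_cases c : w = a
    · subst c
      simp [k, h]
    by_cases c' : w = b
    · subst c'
      simp [c, h']
    by_cases e : Par w a
    · have : ¬Par w b := fun z => k (h2 w a b e z)
      simp [c', this]
    · simp [c, e]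
  have inv := Matrix.mul_nonsing_inv _ hC
  have inv' := Matrix.nonsing_inv_mul _ hC
  refine ⟨_, _, Matrix.isSymm_transpose_mul_self _, inv, off, fun K hK => ⟨fun a b ka kb => ?_,
    fun a ka h h' w kw => ?_⟩⟩
  · set C0 := (1 - N)ᵀ * (1 - N)
    have cl : ∀ a c, ¬(K a ↔ K c) → C0 a c = 0 := fun a c h =>
      off a c (fun e => h (e ▸ Iff.rfl)) (fun z => h (hK _ _ z)) fun z => h (hK _ _ z).symm
    let η : W → F := fun c => if K c then C0⁻¹ c b else 0
    have z : C0 *ᵥ η = 0 := funext fun e => by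
      by_cases ke : K e
      · have := congrFun (congrFun inv e) b
        rw [Matrix.one_apply_ne fun z : e = b => kb (z ▸ ke), Matrix.mul_apply] at this
        refine Eq.trans (Finset.sum_congr rfl fun c _ => ?_) this
        by_cases kc : K c
        · simp [η, kc]
        · simp [cl e c (by simp [ke, kc])]
      · refine Finset.sum_eq_zero fun c _ => ?_
        by_cases kc : K c
        · simp [cl e c (by simp [ke, kc])]
        · simp [η, kc]
    have := congrFun (congrArg (C0⁻¹ *ᵥ ·) z) a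
    simpa [Matrix.mulVec_mulVec, inv', η, ka] using this
  · let η : W → F := fun c => if K c then 1 else 0
    have z1 : (1 - N) *ᵥ η = Pi.single a 1 := funext fun e => by
      by_cases c : ∃ b, Par e b
      · obtain ⟨b, c⟩ := c
        rw [n1 η e b c, Pi.single_eq_of_ne fun z : e = a => h b (z ▸ c)]
        simp [η, hK e b c]
      · rw [n0 η e (not_exists.1 c)]
        by_cases k : e = a
        · simp [k, η, ka]
        · have : ¬K e := fun z => c (h' e z k)
          simp [k, η, this]
    have z2 : (1 - N)ᵀ *ᵥ Pi.single a 1 = Pi.single a 1 := funext fun e => by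
      simp [N, h, Matrix.one_apply, Pi.single_apply, eq_comm]
    have z : ((1 - N)ᵀ * (1 - N)) *ᵥ η = Pi.single a 1 := by rw [← Matrix.mulVec_mulVec, z1, z2]
    have := congrFun (congrArg (((1 - N)ᵀ * (1 - N))⁻¹ *ᵥ ·) z) w
    simp only [Matrix.mulVec_mulVec, inv', Matrix.one_mulVec, η, if_pos kw] at this
    simpa using this.symm

/-- The matrix on `S ⊕ W`. -/
theorem matrix [Infinite F] {S W : Type} [Fintype S] [Fintype W] [DecidableEq S] [DecidableEq W]
    (G : SimpleGraph (S ⊕ W)) (K : SimpleGraph S) [DecidableRel K.Adj] (d : ℕ)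
    (hd : ∀ v, K.degree v < d) (D : S → S → Prop) (hD : ∀ u v, D u v → D v u)
    (hD' : ∀ u v, D u v → u ≠ v ∧ ¬K.Adj u v)
    (hG : ∀ u v, u ≠ v → (G.Adj (.inl u) (.inl v) ↔ ¬(K.Adj u v ∨ D u v))) (α : S → S → W)
    (hT : ∀ u v, D u v → G.Adj (.inl u) (.inr (α u v))) (C0 Γ0 : Matrix W W F) (hs : C0.IsSymm)
    (hi : C0 * Γ0 = 1) (h0 : ∀ a b, a ≠ b → ¬G.Adj (.inr a) (.inr b) → C0 a b = 0)
    (h1 : ∀ u v, D u v → Γ0 (α u v) (α v u) ≠ 0)
    (h2 : ∀ u v u' v', D u v → D u' v' → ¬(u' = u ∧ v' = v) → ¬(u' = v ∧ v' = u) →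
      Γ0 (α u v) (α u' v') = 0) :
    ∃ A : Matrix (S ⊕ W) (S ⊕ W) F, A.IsSymm ∧ (∀ i j, i ≠ j → (A i j ≠ 0 ↔ G.Adj i j)) ∧
      A.rank ≤ d + Fintype.card W := by
  classical
  let C1 : Matrix W W F[X] := Matrix.of fun a b => if G.Adj (.inr a) (.inr b) then 1 else 0
  let M : Matrix W W F[X] := C0.map C + (X ^ (d + 1) : F[X]) • C1
  have Ms : M.IsSymm := by
    ext a b : 2
    simp [M, C1, hs.apply, G.adj_comm]
  have Md : M.det.coeff 0 ≠ 0 := by
    have : (M.map fun p => p.coeff 0) = C0 := by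
      ext a b
      simp [M]
    rw [det_coeff, this]
    exact (Matrix.isUnit_det_of_right_inverse hi).ne_zero
  have Md' : M.det ≠ 0 := fun z => Md (by simp [z])
  have Γs : M.adjugate.IsSymm := by
    rw [Matrix.IsSymm, Matrix.adjugate_transpose, Ms.eq]
  have Γe : ∀ a b, X ^ (d + 1) ∣ M.adjugate a b - M.det * C (Γ0 a b) := fun a b => by
    have e : M.adjugate * M * Γ0.map C = M.adjugate +
        (X ^ (d + 1) : F[X]) • (M.adjugate * C1 * Γ0.map C) := by
      rw [Matrix.mul_assoc, show M * Γ0.map C = 1 + (X ^ (d + 1) : F[X]) • (C1 * Γ0.map C) by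
        simp only [M]
        rw [Matrix.add_mul, ← Matrix.map_mul, hi, Matrix.smul_mul]
        simp, Matrix.mul_add, Matrix.mul_one, Matrix.mul_smul, Matrix.mul_assoc]
    rw [Matrix.adjugate_mul, Matrix.smul_mul, Matrix.one_mul] at e
    have := congrFun (congrFun e a) b
    simp only [Matrix.smul_apply, Matrix.map_apply, Matrix.add_apply, smul_eq_mul] at this
    rw [this]
    simp
  obtain ⟨x, E, hE, hx⟩ := vectors K d hd D hD hD' (fun u w => G.Adj (.inl u) (.inr w)) α hT
    M.adjugate Γs (fun u v h z => by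
      have := Polynomial.X_pow_dvd_iff.1 (Γe (α u v) (α v u)) 0 (by omega)
      rw [Polynomial.coeff_sub, z, Polynomial.coeff_mul_C, zero_sub, neg_eq_zero] at this
      exact mul_ne_zero Md (h1 u v h) this)
    fun u v u' v' h h' k k' => by
      have := Γe (α u v) (α u' v')
      rw [h2 u v u' v' h h' k k', map_zero, mul_zero, sub_zero] at this
      exact (pow_dvd_pow X (by omega)).trans this
  let xx : S ⊕ W → ℕ → F[X] := Sum.elim x 0
  let EE : S ⊕ W → W → F[X] := Sum.elim E fun a b => M a b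
  let B : S ⊕ W → S ⊕ W → F[X] := fun i j => form d (xx i) (xx j) + EE j ⬝ᵥ M.adjugate *ᵥ EE i
  have Bs : ∀ i j, B i j = B j i := fun i j => by
    simp only [B]
    rw [form_comm, Matrix.dotProduct_mulVec, ← Matrix.mulVec_transpose, Γs.eq, dotProduct_comm]
  have Bw : ∀ i w, B i (.inr w) = M.det * EE i w := fun i w => by
    have : EE (.inr w) ⬝ᵥ M.adjugate *ᵥ EE i = (M *ᵥ M.adjugate *ᵥ EE i) w := rfl
    simp [B, xx, form, this, Matrix.mulVec_mulVec, Matrix.mul_adjugate, Matrix.smul_mulVec]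
  have Bp : ∀ i j, i ≠ j → (B i j ≠ 0 ↔ G.Adj i j) := by
    rintro (u | a) (v | b) h
    · have h' : u ≠ v := fun e => h (congrArg _ e)
      rw [hG u v h', ← hx u v h']
      rfl
    · rw [Bw, ← hE u b]
      simp [Md', EE]
    · rw [Bs, Bw, G.adj_comm, ← hE v a]
      simp [Md', EE]
    · rw [Bw, mul_ne_zero_iff_left Md']
      by_cases c : G.Adj (.inr a) (.inr b)
      · refine iff_of_true (fun z => ?_) c
        have := congrArg (·.coeff (d + 1)) z
        simp [EE, M, C1, c] at this
      · simp [EE, M, C1, c, h0 a b (fun e => h (congrArg _ e)) c]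
  obtain ⟨t, ht⟩ := exists_common_nonroot'
    (fun a : {a : (S ⊕ W) × (S ⊕ W) // B a.1 a.2 ≠ 0} => B a.1.1 a.1.2) (fun a => a.2)
  refine ⟨Matrix.of fun i j => (B i j).eval t, ?_, fun i j h => ?_, ?_⟩
  · ext i j
    simp only [Matrix.transpose_apply, Matrix.of_apply, Bs i j]
  · rw [← Bp i j h, Matrix.of_apply]
    exact ⟨fun k z => k (by rw [z, Polynomial.eval_zero]), fun k => ht ⟨(i, j), k⟩⟩
  · have : (Matrix.of fun i j => (B i j).eval t) =
        (Matrix.of fun i (k : Fin d ⊕ W) => (Sum.elim (fun k : Fin d => X ^ (k : ℕ) * xx i k)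
          (M.adjugate *ᵥ EE i) k).eval t) *
        (Matrix.of fun (k : Fin d ⊕ W) j =>
          (Sum.elim (fun k : Fin d => xx j k) (EE j) k).eval t) := by
      ext i j
      simp only [Matrix.of_apply, Matrix.mul_apply, ← Polynomial.eval_mul,
        ← Polynomial.eval_finsetSum, Fintype.sum_sum_type, Sum.elim_inl, Sum.elim_inr,
        ← Polynomial.eval_add, B]
      rw [form, Finset.sum_range, dotProduct_comm]
      rfl
    rw [this]
    refine (Matrix.rank_mul_le_left _ _).trans ((Matrix.rank_le_card_width _).trans ?_)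
    simp

end Pool.Agent.MP_199c9e_co.Top
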