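import Pool.Agent.MP_199c9e_co.H27.Forest
import Pool.Agent.MP_199c9e_co.H27.Defs

/-! The bound for topological minors. -/

set_option autoImplicit false

namespace Pool.Agent.MP_199c9e_co.Top

open Finset Matrix Pool.Agent.MP_199c9e_co

universe u

theorem top_bound (F : Type u) [Field F] [Infinite F] {S V : Type} [Fintype S] [Fintype V]
    [DecidableEq V] (H : SimpleGraph S) [DecidableRel H.Adj] (G : SimpleGraph V)
    (h : IsTopMinor H G) : ∃ A : Matrix V V F, A.IsSymm ∧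
      (∀ i j : V, i ≠ j → (A i j ≠ 0 ↔ G.Adj i j)) ∧ A.rank + H.minDegree ≤ Fintype.card V := by
  classical
  obtain ⟨φ, p, hφ, p1, p2, p3⟩ := h
  let W := {w // w ∉ Set.range φ}
  let ψ : S ⊕ W ≃ V := Equiv.ofBijective (Sum.elim φ Subtype.val) ⟨by
    rintro (a | a) (b | b) e
    · exact congrArg _ (hφ e)
    · exact absurd ⟨a, e⟩ b.2
    · exact absurd ⟨b, e.symm⟩ a.2
    · exact congrArg _ (Subtype.ext e), fun v => by
    by_cases c : v ∈ Set.range φ
    · obtain ⟨u, rfl⟩ := c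
      exact ⟨.inl u, rfl⟩
    · exact ⟨.inr ⟨v, c⟩, rfl⟩⟩
  let D : S → S → Prop := fun u v => H.Adj u v ∧ ¬G.Adj (φ u) (φ v)
  have hD : ∀ u v, D u v → D v u := fun u v k => ⟨k.1.symm, fun z => k.2 z.symm⟩
  let K : SimpleGraph S := (H ⊔ G.comap φ)ᶜ
  have hd : ∀ v, K.degree v < Fintype.card S - H.minDegree := fun v => by
    have h0 : K.degree v ≤ Hᶜ.degree v :=
      SimpleGraph.degree_le_of_le (compl_le_compl le_sup_left)
    have h1 := H.degree_compl v
    have h2 := H.minDegree_le_degree v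
    have h3 := H.degree_lt_card_verts v
    omega
  have hmin : H.minDegree ≤ Fintype.card S := by
    rcases isEmpty_or_nonempty S with hV | ⟨⟨v⟩⟩
    · simp
    · exact (H.minDegree_le_degree v).trans (H.degree_lt_card_verts v).le
  have hD' : ∀ u v, D u v → u ≠ v ∧ ¬K.Adj u v := fun u v k =>
    ⟨k.1.ne, fun z => z.2 (Or.inl k.1)⟩
  have hG : ∀ u v, u ≠ v → (G.Adj (φ u) (φ v) ↔ ¬(K.Adj u v ∨ D u v)) := fun u v k => by
    simp only [K, D, SimpleGraph.compl_adj, SimpleGraph.sup_adj, SimpleGraph.comap_adj]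
    tauto
  suffices ∃ A : Matrix (S ⊕ W) (S ⊕ W) F, A.IsSymm ∧
      (∀ i j, i ≠ j → (A i j ≠ 0 ↔ (G.comap ψ).Adj i j)) ∧
      A.rank ≤ Fintype.card S - H.minDegree + Fintype.card W by
    obtain ⟨A, a1, a2, a3⟩ := this
    refine ⟨A.submatrix ψ.symm ψ.symm, a1.submatrix _, fun i j k => ?_, ?_⟩
    · simpa using a2 _ _ (ψ.symm.injective.ne k)
    · rw [Matrix.rank_submatrix, ← Fintype.card_congr ψ, Fintype.card_sum]
      omega
  let e := Fintype.equivFin S
  let J := {q : S × S // D q.1 q.2 ∧ e q.1 < e q.2}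
  let m : J → ℕ := fun q => (p _ _ q.2.1.1).length
  let g : J → ℕ → V := fun q => (p _ _ q.2.1.1).getVert
  have g0 : ∀ q, g q 0 = φ q.1.1 := fun q => SimpleGraph.Walk.getVert_zero _
  have g1 : ∀ q, g q (m q) = φ q.1.2 := fun q => SimpleGraph.Walk.getVert_length _
  have gA : ∀ q i, i < m q → G.Adj (g q i) (g q (i + 1)) := fun q i k =>
    SimpleGraph.Walk.adj_getVert_succ _ k
  have gI : ∀ q i j, i ≤ m q → j ≤ m q → g q i = g q j → i = j := fun q i j a b k =>
    (p1 _ _ q.2.1.1).getVert_injOn a b k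
  have gW : ∀ q i, 0 < i → i < m q → g q i ∉ Set.range φ := by
    rintro q i a b ⟨x, k⟩
    rcases p2 _ _ q.2.1.1 x (k ▸ SimpleGraph.Walk.getVert_mem_support _ i) with rfl | rfl
    · have := gI q 0 i (by omega) b.le ((g0 q).trans k)
      omega
    · have := gI q (m q) i le_rfl b.le ((g1 q).trans k)
      omega
  have ori : ∀ q q' : J, s(q.1.1, q.1.2) = s(q'.1.1, q'.1.2) → q = q' := fun q q' k => by
    rcases Sym2.eq_iff.1 k with k | k
    · exact Subtype.ext (Prod.ext k.1 k.2)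
    · exact absurd (k.1 ▸ k.2 ▸ q.2.2) (lt_asymm q'.2.2)
  have gU : ∀ q i q' j, 0 < i → i < m q → j < m q' → g q i = g q' j → q = q' ∧ i = j := by
    intro q i q' j a b c k
    obtain rfl := ori q q' ((p3 _ _ q.2.1.1 _ _ q'.2.1.1 (g q i)
      (SimpleGraph.Walk.getVert_mem_support _ i)
      (k ▸ SimpleGraph.Walk.getVert_mem_support _ j)).resolve_left (gW q i a b))
    exact ⟨rfl, gI q i j b.le c.le k⟩
  have m2 : ∀ q, 2 ≤ m q := fun q => by
    by_contra c
    rcases Nat.eq_zero_or_pos (m q) with z | z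
    · exact q.2.1.1.ne (hφ ((g0 q).symm.trans (z ▸ g1 q)))
    · have := gA q 0 z
      rw [g0, show 0 + 1 = m q by omega, g1] at this
      exact q.2.1.2 this
  have ex : ∀ u v, D u v → ∃ (w : W) (q : J), s(q.1.1, q.1.2) = s(u, v) ∧
      (e u < e v ∧ w.1 = g q 1 ∨ e v < e u ∧ w.1 = g q (m q - 1)) ∧ G.Adj (φ u) w := by
    intro u v k
    rcases lt_or_gt_of_ne (e.injective.ne k.1.ne) with c | c
    · let q : J := ⟨(u, v), k, c⟩
      have := m2 q
      refine ⟨⟨_, gW q 1 one_pos (by omega)⟩, q, rfl, Or.inl ⟨c, rfl⟩, ?_⟩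
      exact g0 q ▸ gA q 0 (by omega)
    · let q : J := ⟨(v, u), hD _ _ k, c⟩
      have := m2 q
      refine ⟨⟨_, gW q (m q - 1) (by omega) (by omega)⟩, q, Sym2.eq_swap, Or.inr ⟨c, rfl⟩, ?_⟩
      have := gA q (m q - 1) (by omega)
      rw [show m q - 1 + 1 = m q by omega, g1] at this
      exact this.symm
  rcases isEmpty_or_nonempty W with hW | hW
  · obtain ⟨A, a1, a2, a3⟩ := exists_matrix F K _ hd
    refine ⟨A.submatrix (Equiv.sumEmpty S W) (Equiv.sumEmpty S W), a1.submatrix _, ?_, ?_⟩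
    · rintro (u | a) (v | b) k
      · have k' : u ≠ v := fun z => k (congrArg _ z)
        have : ¬D u v := fun z => hW.elim (ex u v z).choose
        refine (not_congr (a2 u v k')).trans (Iff.trans ?_ (hG u v k').symm)
        simp [this]
      all_goals first | exact hW.elim a | exact hW.elim b
    · rw [Matrix.rank_submatrix]
      omega
  choose! α κ α1 α2 α3 using ex
  let Par : W → W → Prop := fun w a =>
    ∃ q i, 0 < i ∧ i + 1 < m q ∧ a.1 = g q i ∧ w.1 = g q (i + 1)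
  have par : ∀ q i (w a : W), 0 < i → i < m q → w.1 = g q i → Par w a →
      1 < i ∧ a.1 = g q (i - 1) := by
    rintro q i w a k k' z ⟨q', j, b, c, z1, z2⟩
    obtain ⟨rfl, rfl⟩ := gU q i q' (j + 1) k k' c (z.symm.trans z2)
    exact ⟨by omega, z1⟩
  have acc : ∀ q i (w : W), 0 < i → i < m q → w.1 = g q i → Acc (fun a w => Par w a) w := by
    intro q i
    induction i with
    | zero => omega
    | succ i ih =>
      refine fun w k k' z => ⟨_, fun a c => ?_⟩
      obtain ⟨c1, c2⟩ := par q _ w a k k' z c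
      exact ih a (by omega) (by omega) c2
  obtain ⟨C0, Γ0, c1, c2, c3, c4⟩ := forest F Par (by
    rintro w a b ⟨q, i, k, k', z1, z2⟩ c
    exact Subtype.ext (z1.trans (par q _ w b (by omega) k' z2 c).2.symm))
    ⟨fun w => ⟨_, fun a ⟨q, i, k, k', z, _⟩ => acc q i a k (by omega) z⟩⟩
  let In : J → W → Prop := fun q w => ∃ i, 0 < i ∧ i < m q ∧ w.1 = g q i
  have cl : ∀ q w a, Par w a → (In q w ↔ In q a) := by
    rintro q w a ⟨q', j, b, c, z1, z2⟩
    constructor
    · rintro ⟨i, k, k', z⟩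
      obtain ⟨rfl, rfl⟩ := gU q i q' (j + 1) k k' c (z.symm.trans z2)
      exact ⟨j, b, by omega, z1⟩
    · rintro ⟨i, k, k', z⟩
      obtain ⟨rfl, rfl⟩ := gU q i q' j k k' (by omega) (z.symm.trans z1)
      exact ⟨i + 1, by omega, c, z2⟩
  have αI : ∀ u v (k : D u v), In (κ u v k) (α u v) := fun u v k => by
    have := m2 (κ u v k)
    rcases α2 u v k with z | z
    · exact ⟨1, one_pos, by omega, z.2⟩
    · exact ⟨_, by omega, by omega, z.2⟩
  have one : ∀ q (a w : W), a.1 = g q 1 → In q w → Γ0 w a = 1 := fun q a w z k => by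
    have := m2 q
    refine (c4 (In q) (cl q)).2 a ⟨1, one_pos, by omega, z⟩
      (fun b c => lt_irrefl _ (par q 1 a b one_pos (by omega) z c).1) ?_ w k
    rintro x ⟨i, k, k', y⟩ ne
    obtain ⟨i, rfl⟩ := Nat.exists_eq_add_of_lt k
    have : i ≠ 0 := fun r => ne (Subtype.ext (by rw [y, z, r]))
    simp only [zero_add] at *
    exact ⟨⟨_, gW q i (by omega) (by omega)⟩, q, i, by omega, k', rfl, y⟩
  have Γs : ∀ a b, Γ0 a b = Γ0 b a := fun a b => by
    have : Γ0ᵀ = Γ0 := by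
      have t := congrArg Matrix.transpose c2
      rw [Matrix.transpose_mul, c1.eq, Matrix.transpose_one] at t
      rw [← Matrix.mul_one Γ0ᵀ, ← c2, ← Matrix.mul_assoc, t, Matrix.one_mul]
    exact (congrFun (congrFun this a) b).symm
  have pA : ∀ a b, Par a b → G.Adj a b := by
    rintro a b ⟨q, i, -, k, z1, z2⟩
    rw [z1, z2]
    exact (gA q i (by omega)).symm
  refine matrix (G.comap ψ) K _ hd D hD hD' hG α α3 C0 Γ0 c1 c2
    (fun a b k k' => c3 a b k (fun z => k' (pA _ _ z)) fun z => k' (pA _ _ z).symm)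
    (fun u v k => ?_) fun u v u' v' k k' n n' => ?_
  · have k' := hD _ _ k
    have q : κ u v k = κ v u k' := ori _ _ ((α1 u v k).trans (Sym2.eq_swap.trans (α1 v u k').symm))
    rcases α2 u v k with z | z
    · rw [Γs, one _ _ _ z.2 (q ▸ αI v u k')]
      exact one_ne_zero
    · rw [one _ _ _ ((α2 v u k').resolve_right fun y => lt_asymm z.1 y.1).2 (q ▸ αI u v k)]
      exact one_ne_zero
  · refine (c4 (In (κ u v k)) (cl _)).1 _ _ (αI u v k) ?_
    rintro ⟨i, a, b, z⟩
    obtain ⟨j, -, b', z'⟩ := αI u' v' k'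
    have := (α1 u' v' k').symm.trans
      ((gU _ i _ j a b b' (z.symm.trans z')).1 ▸ α1 u v k)
    exact (Sym2.eq_iff.1 this).elim n n'

end Pool.Agent.MP_199c9e_co.Top
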