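import Pool.Agent.MP_199c9e_co.H27.Alg

/-! The extended vectors. -/

set_option autoImplicit false

namespace Pool.Agent.MP_199c9e_co.Top

open Finset Polynomial Matrix Pool.Agent.MP_199c9e_co

universe u

variable {F : Type u} [Field F] {S W : Type} [Fintype W]

/-- Small outside the designated places of `v`. -/
def Small (d : ℕ) (D : S → S → Prop) (α : S → S → W) (v : S) (E : W → F[X]) : Prop :=
  ∀ w, (∀ u, D v u → α v u ≠ w) → X ^ d ∣ E w

theorem cross {d : ℕ} {D : S → S → Prop} {α : S → S → W} {Γ : Matrix W W F[X]}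
    (hΓ : ∀ u v u' v', D u v → D u' v' → u ≠ u' → ¬(u' = v ∧ v' = u) →
      X ^ d ∣ Γ (α u v) (α u' v'))
    {u v : S} (huv : v ≠ u) {E E' : W → F[X]} (hE : Small d D α v E) (hE' : Small d D α u E')
    (h0 : D v u → E (α v u) = 0 ∨ E' (α u v) = 0) : X ^ d ∣ E ⬝ᵥ Γ *ᵥ E' := by
  simp only [dotProduct, Matrix.mulVec, Finset.mul_sum]
  refine Finset.dvd_sum fun w _ => Finset.dvd_sum fun w' _ => ?_
  by_cases c : ∀ m, D v m → α v m ≠ w
  · exact (hE w c).mul_right _
  by_cases c' : ∀ m, D u m → α u m ≠ w'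
  · exact ((hE' w' c').mul_left _).mul_left _
  push Not at c c'
  obtain ⟨m, hm, rfl⟩ := c
  obtain ⟨m', hm', rfl⟩ := c'
  by_cases k : u = m ∧ m' = v
  · obtain ⟨rfl, rfl⟩ := k
    rcases h0 hm with z | z <;> simp [z]
  · exact ((hΓ _ _ _ _ hm hm' huv k).mul_right _).mul_left _

theorem vectors [Infinite F] [Fintype S] (K : SimpleGraph S) [DecidableRel K.Adj] (d : ℕ)
    (hd : ∀ v, K.degree v < d) (D : S → S → Prop) (hD : ∀ u v, D u v → D v u)
    (hD' : ∀ u v, D u v → u ≠ v ∧ ¬K.Adj u v) (T : S → W → Prop) (α : S → S → W)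
    (hT : ∀ u v, D u v → T u (α u v)) (Γ : Matrix W W F[X]) (hs : Γ.IsSymm)
    (h1 : ∀ u v, D u v → (Γ (α u v) (α v u)).coeff 0 ≠ 0)
    (hΓ : ∀ u v u' v', D u v → D u' v' → ¬(u' = u ∧ v' = v) → ¬(u' = v ∧ v' = u) →
      X ^ d ∣ Γ (α u v) (α u' v')) :
    ∃ (x : S → ℕ → F[X]) (E : S → W → F[X]), (∀ u w, E u w ≠ 0 ↔ T u w) ∧
      ∀ u v, u ≠ v → (form d (x u) (x v) + E v ⬝ᵥ Γ *ᵥ E u = 0 ↔ K.Adj u v ∨ D u v) := by
  classical
  obtain ⟨l, s, hl, hs1, hs2, hs3⟩ := exists_levels K d hd
  obtain ⟨y, hy1, hy2⟩ := exists_generic F l d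
  have hΓ' : ∀ u v u' v', D u v → D u' v' → u ≠ u' → ¬(u' = v ∧ v' = u) →
      X ^ d ∣ Γ (α u v) (α u' v') := fun u v u' v' h h' k k' =>
    hΓ u v u' v' h h' (fun z => k z.1.symm) k'
  have c0 : ∀ (v : S) {p : F[X]}, X ^ d ∣ p → p.coeff 0 = 0 := fun v p h =>
    Polynomial.X_pow_dvd_iff.1 h 0 (Nat.zero_lt_of_lt (hl v))
  have inj : ∀ v u u', D v u → D v u' → α v u = α v u' → u = u' := fun v u u' h h' e => by
    by_contra c
    refine h1 v u h (c0 v ?_)
    rw [e]
    exact hΓ v u' u v h' (hD _ _ h) (fun z => (hD' _ _ h).1 z.1.symm) fun z => c z.1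
  obtain ⟨ρ, ρ1, ρ2⟩ : ∃ ρ : S → ℕ, Function.Injective ρ ∧ ∀ u v, l u < l v → ρ u < ρ v := by
    let e := Fintype.equivFin S
    refine ⟨fun v => l v * Fintype.card S + e v, fun u v h => ?_, fun u v h => ?_⟩
    · have := congrArg (· % Fintype.card S) h
      simp only [Nat.mul_add_mod_of_lt (e _).2] at this
      exact e.injective (Fin.ext this)
    · have := (e u).2
      have : (l u + 1) * Fintype.card S ≤ l v * Fintype.card S := Nat.mul_le_mul_right _ h
      simp only [add_mul] at this ⊢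
      omega
  have hind : ∀ n, ∃ (x : S → ℕ → F[X]) (E : S → W → F[X]) (c : S → F), ∀ v, ρ v < n →
      c v ≠ 0 ∧ (∀ j, (x v j).coeff 0 = c v * stair l y v j) ∧ (∀ w, ¬T v w → E v w = 0) ∧
        Small d D α v (E v) ∧ (∀ u, D v u → ρ v < ρ u → (E v (α v u)).coeff 0 ≠ 0) ∧
        (∀ w, T v w → (∀ u, D v u → ρ u < ρ v → α v u ≠ w) → E v w ≠ 0) ∧
        ∀ u, ρ u < ρ v → K.Adj v u ∨ D v u → form d (x u) (x v) + E v ⬝ᵥ Γ *ᵥ E u = 0 := by
    intro n
    induction n with
    | zero => exact ⟨fun _ _ => 0, fun _ _ => 0, fun _ => 0, fun v hv => absurd hv (by omega)⟩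
    | succ n ih =>
      obtain ⟨x, E, c, hx⟩ := ih
      by_cases ex : ∃ v, ρ v = n
      swap
      · exact ⟨x, E, c, fun v hv => hx v (lt_of_le_of_ne (by omega) fun e => ex ⟨v, e⟩)⟩
      obtain ⟨v, rfl⟩ := ex
      let P := {u // D v u ∧ ρ u < ρ v}
      let τ : Fin (l v) ⊕ P → S := Sum.elim (fun i => s v i) Subtype.val
      have τ1 : ∀ i, ρ (τ i) < ρ v := by
        rintro (i | p)
        · exact ρ2 _ _ ((hs2 v i i.2).2.trans_lt i.2)
        · exact p.2.2
      have τ2 : ∀ i, v ≠ τ i := fun i e => (τ1 i).ne (congrArg ρ e.symm)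
      have τ3 : ∀ i (p : P), τ i = p → i = .inr p := by
        rintro (i | q) p e
        · exact absurd (e ▸ (hs2 v i i.2).1) (hD' _ _ p.2.1).2
        · exact congrArg _ (Subtype.ext e)
      let E0 : W → F[X] := fun w => if ∃ p : P, α v p = w then 0 else
        if ∃ u, D v u ∧ α v u = w then 1 else if T v w then X ^ d else 0
      have s0 : Small d D α v E0 := fun w h => by
        simp only [E0]
        split_ifs with a b
        · exact dvd_zero _
        · obtain ⟨u, k, e⟩ := b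
          exact absurd e (h u k)
        · exact dvd_rfl
        · exact dvd_zero _
      have s1 : ∀ p : P, Small d D α v (Pi.single (α v p) (1 : F[X])) := fun p w h => by
        rw [Pi.single_eq_of_ne (h p p.2.1).symm]
        exact dvd_zero _
      have hdet : (Matrix.of fun i j : Fin (l v) => (x (τ (.inl i)) j).coeff 0).det ≠ 0 := by
        have h0 := det_scaled (fun i : Fin (l v) => c (s v i)) (fun i => (hx _ (τ1 (.inl i))).1)
          (fun i j : Fin (l v) => stair l y (s v i) j)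
          (hy2 _ (hl v).le (fun i => s v i) (fun i j h => Fin.ext (hs1 v i j i.2 j.2 h))
            fun i => (hs2 v i i.2).2)
        convert h0 using 2
        ext i j : 2
        exact (hx _ (τ1 (.inl i))).2.1 j
      obtain ⟨b, κ, μ, hκ, hb, he⟩ := step (d := d) (hl v).le (fun i => x (τ i))
        (fun j => y (v, j)) hdet (fun i => E0 ⬝ᵥ Γ *ᵥ E (τ i))
        (fun i => (pow_dvd_pow X (hl v).le).trans (cross hΓ' (τ2 i) s0 (hx _ (τ1 i)).2.2.2.1
          fun h => Or.inl (if_pos ⟨⟨_, h, τ1 i⟩, rfl⟩)))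
        (fun i p => Pi.single (α v p) (1 : F[X]) ⬝ᵥ Γ *ᵥ E (τ i))
        (fun i p k => c0 v (cross hΓ' (τ2 i) (s1 p) (hx _ (τ1 i)).2.2.2.1 fun h => Or.inl
          (Pi.single_eq_of_ne (fun e => k (τ3 i p (inj v _ _ h p.2.1 e))) _)))
        (fun p => by
          have q := hx _ p.2.2
          have sm : Small d D α p.1 (Function.update (E p) (α p v) 0) := fun w h => by
            rw [Function.update_of_ne (h v (hD _ _ p.2.1)).symm]
            exact q.2.2.2.1 w h
          have z := c0 v (cross hΓ' (τ2 (.inr p)) (s1 p) sm fun _ =>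
            Or.inr (Function.update_self ..))
          have e : E p = Function.update (E p) (α p v) 0 + Pi.single (α p v) (E p (α p v)) := by
            ext1 w
            by_cases k : w = α p v
            · subst k
              simp
            · simp [k]
          show (Pi.single (α v p) (1 : F[X]) ⬝ᵥ Γ *ᵥ E p).coeff 0 ≠ 0
          rw [e, Matrix.mulVec_add, dotProduct_add, Polynomial.coeff_add, z, zero_add]
          simpa using ⟨q.2.2.2.2.1 v (hD _ _ p.2.1) p.2.2, h1 v p p.2.1⟩)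
      let E1 : W → F[X] := κ • E0 + ∑ p : P, μ p • Pi.single (α v p) (1 : F[X])
      have e1 : ∀ w, (¬∃ p : P, α v p = w) → E1 w = κ * E0 w := fun w h => by
        simp only [E1, Pi.add_apply, Finset.sum_apply, Pi.smul_apply, smul_eq_mul]
        rw [Finset.sum_eq_zero fun p _ => by
          rw [Pi.single_eq_of_ne fun e => h ⟨p, e.symm⟩, mul_zero], add_zero]
      have hκ' : κ ≠ 0 := fun z => hκ (by simp [z])
      refine ⟨Function.update x v b, Function.update E v E1,
        Function.update c v (κ.coeff 0), fun u hu => ?_⟩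
      have old : ∀ m, ρ m < ρ v → m ≠ v := fun m h e => h.ne (congrArg ρ e)
      by_cases k : u = v
      swap
      · have hu' : ρ u < ρ v := lt_of_le_of_ne (by omega) fun e => k (ρ1 e)
        simp only [Function.update_of_ne k]
        obtain ⟨a1, a2, a3, a4, a5, a6, a7⟩ := hx u hu'
        refine ⟨a1, a2, a3, a4, a5, a6, fun m h h' => ?_⟩
        simp only [Function.update_of_ne (old m (h.trans hu'))]
        exact a7 m h h'
      subst k
      simp only [Function.update_self]
      refine ⟨hκ, hb, fun w h => ?_, fun w h => ?_, fun m h h' => ?_, fun w h h' => ?_,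
        fun m h h' => ?_⟩
      · have a : ¬∃ p : P, α u p = w := fun ⟨p, e⟩ => h (e ▸ hT _ _ p.2.1)
        rw [e1 w a]
        simp only [E0]
        rw [if_neg a, if_neg fun ⟨m, k, e⟩ => h (e ▸ hT _ _ k), if_neg h, mul_zero]
      · rw [e1 w fun ⟨p, e⟩ => h p p.2.1 e]
        exact (s0 w h).mul_left _
      · have a : ¬∃ p : P, α u p = α u m := fun ⟨p, e⟩ =>
          lt_asymm h' (inj u _ _ p.2.1 h e ▸ p.2.2)
        rw [e1 _ a]
        simp only [E0]
        rwa [if_neg a, if_pos ⟨m, h, rfl⟩, mul_one]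
      · have a : ¬∃ p : P, α u p = w := fun ⟨p, e⟩ => h' p p.2.1 p.2.2 e
        rw [e1 _ a]
        simp only [E0]
        rw [if_neg a, if_pos h]
        split_ifs
        · simpa using hκ'
        · exact mul_ne_zero hκ' (pow_ne_zero _ Polynomial.X_ne_zero)
      · simp only [Function.update_of_ne (old m h)]
        obtain ⟨i, rfl⟩ : ∃ i, τ i = m := by
          rcases h' with h' | h'
          · obtain ⟨i, hi, e⟩ := hs3 m u h' (not_lt.1 fun z => lt_asymm h (ρ2 _ _ z))
            exact ⟨.inl ⟨i, hi⟩, e⟩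
          · exact ⟨.inr ⟨m, h', h⟩, rfl⟩
        rw [← he i]
        simp only [E1, add_dotProduct, sum_dotProduct, smul_dotProduct, smul_eq_mul, add_assoc]
  obtain ⟨x, E, c, hx'⟩ := hind (Finset.univ.sup ρ + 1)
  have hx := fun v => hx' v (Nat.lt_succ_of_le (Finset.le_sup (Finset.mem_univ v)))
  have fromEq : ∀ u v, ρ u < ρ v → form d (x u) (x v) + E v ⬝ᵥ Γ *ᵥ E u = 0 →
      (D v u → E v (α v u) = 0) → X ^ d ∣ form d (x u) (x v) := fun u v h e z => by
    rw [eq_neg_of_add_eq_zero_left e, dvd_neg]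
    exact cross hΓ' (fun k => h.ne (congrArg ρ k.symm)) (hx v).2.2.2.1 (hx u).2.2.2.1
      fun k => Or.inl (z k)
  have key : ∀ u v, ρ u < ρ v → ¬K.Adj v u → ¬X ^ d ∣ form d (x u) (x v) := by
    intro u v huv hadj h0
    have hle : l u ≤ l v := not_lt.1 fun z => lt_asymm huv (ρ2 _ _ z)
    let τ : Fin (l v + 1) → S := fun i => if (i : ℕ) < l v then s v i else u
    have hτ1 : Function.Injective τ := by
      intro i j hij
      simp only [τ] at hij
      have hi := i.2
      have hj := j.2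
      split_ifs at hij with h1 h2 h2
      · exact Fin.ext (hs1 v i j h1 h2 hij)
      · exact absurd (hij ▸ (hs2 v i h1).1) hadj
      · exact absurd (hij ▸ (hs2 v j h2).1) hadj
      · exact Fin.ext (by omega)
    have hτ2 : ∀ i, l (τ i) ≤ i := by
      intro i
      have hi := i.2
      simp only [τ]
      split_ifs with h1
      · exact (hs2 v i h1).2
      · omega
    have hdet : (Matrix.of fun i j : Fin (l v + 1) => (x (τ i) j).coeff 0).det ≠ 0 := by
      have h0 := det_scaled (fun i => c (τ i)) (fun i => (hx _).1)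
        (fun i j : Fin (l v + 1) => stair l y (τ i) j) (hy2 _ (hl v) τ hτ1 hτ2)
      convert h0 using 2
      ext i j : 2
      exact (hx _).2.1 j
    have hb : (x v (l v)).coeff 0 ≠ 0 := by
      rw [(hx v).2.1, stair, if_neg (lt_irrefl _)]
      exact mul_ne_zero (hx v).1 (hy1 v)
    apply not_all_dvd (d := d) (hl v) (fun i => x (τ i)) hdet (x v) hb
    intro i
    simp only [τ]
    split_ifs with h1
    · have a := hs2 v i h1
      have b := ρ2 _ _ (a.2.trans_lt h1)
      exact fromEq _ _ b ((hx v).2.2.2.2.2.2 _ b (Or.inl a.1)) fun k => absurd a.1 (hD' _ _ k).2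
    · exact h0
  have main : ∀ u v, ρ u < ρ v →
      (form d (x u) (x v) + E v ⬝ᵥ Γ *ᵥ E u = 0 ↔ K.Adj v u ∨ D v u) := fun u v h =>
    ⟨fun e => by
      by_contra k
      exact key u v h (fun z => k (Or.inl z)) (fromEq u v h e fun z => absurd (Or.inr z) k),
      (hx v).2.2.2.2.2.2 u h⟩
  refine ⟨x, E, fun v w => ⟨fun h => not_not.1 fun k => h ((hx v).2.2.1 w k), fun h z => ?_⟩,
    fun u v huv => ?_⟩
  · by_cases k : ∀ u, D v u → ρ u < ρ v → α v u ≠ w
    · exact (hx v).2.2.2.2.2.1 w h k z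
    · push Not at k
      obtain ⟨u, a, b, rfl⟩ := k
      exact key u v b (hD' _ _ a).2 (fromEq u v b ((main u v b).2 (Or.inr a)) fun _ => z)
  · rcases lt_or_gt_of_ne (ρ1.ne huv) with h | h
    · rw [main u v h, K.adj_comm]
      exact or_congr_right ⟨hD _ _, hD _ _⟩
    · rw [← main v u h, form_comm, Matrix.dotProduct_mulVec, ← Matrix.mulVec_transpose, hs.eq,
        dotProduct_comm]

end Pool.Agent.MP_199c9e_co.Top
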